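import Mathlib
import Pool.Agent.R274.LCC2

/-!
# MP_c9564b_pr : the labelled coupon collector with two sample sizes

Full positive answer to Q1: for `1 ≤ k₁ < k₂ ≤ n / 2` and every `p ∈ [0, 1]`, if `K = k₁` with
probability `p` and `K = k₂` with probability `1 - p`, then
`E[T_{k₂}] ≤ E[T_K] ≤ E[T_{k₁}]`.

Proof: the matching is recovered iff every coupon has been seen and any two coupons are separated
by a sample.  Given all the samples but one, the proportion of `k`-subsets which complete the
recovery is nondecreasing in `k ≤ n / 2` (double counting), and the samples can be replaced one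
after the other.
-/

open Pool.Agent.R274.LCC

theorem Pool.Agent.Results.MP_c9564b_pr.MonotoneRecovery.result
    (n k₁ k₂ : ℕ) (_hk₁ : 1 ≤ k₁) (h12 : k₁ < k₂) (h2 : 2 * k₂ ≤ n)
    (p : ℝ) (hp : 0 ≤ p) (hp' : p ≤ 1) (σ : Fin n ≃ Fin n) :
    expTime σ (sampleLaw n k₂) ≤ expTime σ (mixedLaw n k₁ k₂ p) ∧
      expTime σ (mixedLaw n k₁ k₂ p) ≤ expTime σ (sampleLaw n k₁) :=
  main h12 h2 hp hp' σ
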